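import Mathlib

/-!
# Zeros of trinomials with a dominant middle coefficient
-/

set_option autoImplicit false

namespace Pool.Agent.Helper168.MM

open Polynomial Complex Metric

lemma int_sum (S : Multiset ℂ) (hS : ∀ ρ ∈ S, ‖ρ‖ ≠ 1) :
    CircleIntegrable (fun z : ℂ => (S.map (fun ρ => 1 / (z - ρ))).sum) 0 1 ∧
      (∮ z in C(0, 1), (S.map (fun ρ => 1 / (z - ρ))).sum) =
        2 * Real.pi * I * ((S.filter (fun ρ => ‖ρ‖ < 1)).card : ℂ) := by
  classical
  induction S using Multiset.induction_on with
  | empty =>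
    constructor
    · simp only [Multiset.map_zero, Multiset.sum_zero]
      exact circleIntegrable_const _ _ _
    · simp [circleIntegral]
  | cons a S ih =>
    obtain ⟨ih1, ih2⟩ := ih (fun ρ hρ => hS ρ (Multiset.mem_cons_of_mem hρ))
    have ha : ‖a‖ ≠ 1 := hS a (Multiset.mem_cons_self a S)
    have h1 : CircleIntegrable (fun z : ℂ => 1 / (z - a)) 0 1 := by
      have h2 : CircleIntegrable (fun z : ℂ => (z - a)⁻¹) 0 1 := by
        rw [circleIntegrable_sub_inv_iff]
        right
        simpa using ha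
      simpa [one_div] using h2
    simp only [Multiset.map_cons, Multiset.sum_cons]
    refine ⟨h1.add ih1, ?_⟩
    rw [circleIntegral.integral_add h1 ih1, ih2]
    by_cases hlt : ‖a‖ < 1
    · have h3 : (∮ z in C(0, 1), 1 / (z - a)) = 2 * Real.pi * I := by
        simp only [one_div]
        exact circleIntegral.integral_sub_inv_of_mem_ball (by simpa using hlt)
      rw [h3, Multiset.filter_cons_of_pos (p := fun ρ : ℂ => ‖ρ‖ < 1) _ hlt, Multiset.card_cons]
      push_cast
      ring
    · have hgt : 1 < ‖a‖ := lt_of_le_of_ne (not_lt.1 hlt) (Ne.symm ha)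
      have hne : ∀ z ∈ closedBall (0 : ℂ) 1, z - a ≠ 0 := by
        intro z hz h
        rw [sub_eq_zero] at h
        rw [mem_closedBall_zero_iff, h] at hz
        linarith
      have h3 : (∮ z in C(0, 1), 1 / (z - a)) = 0 := by
        apply Complex.circleIntegral_eq_zero_of_differentiable_on_off_countable zero_le_one
          Set.countable_empty
        · exact ContinuousOn.div continuousOn_const (continuousOn_id.sub continuousOn_const) hne
        · intro z hz
          refine DifferentiableAt.div (differentiableAt_const _)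
            (differentiableAt_id.sub (differentiableAt_const _)) ?_
          exact hne z (ball_subset_closedBall hz.1)
      rw [h3, Multiset.filter_cons_of_neg (p := fun ρ : ℂ => ‖ρ‖ < 1) _ hlt, zero_add]

/-- the trinomial `z ^ (j + s) + c z ^ s + b` -/
noncomputable def tri (j s : ℕ) (c b : ℂ) : ℂ[X] := X ^ (j + s) + C c * X ^ s + C b

lemma tri_eval (j s : ℕ) (c b z : ℂ) : (tri j s c b).eval z = z ^ (j + s) + c * z ^ s + b := by
  simp [tri]

lemma tri_monic {j s : ℕ} (hj : 0 < j) (hs : 0 < s) (c b : ℂ) :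
    (tri j s c b).Monic ∧ (tri j s c b).natDegree = j + s := by
  have h1 : (tri j s c b) = X ^ (j + s) + (C c * X ^ s + C b) := by rw [tri, add_assoc]
  have h2 : (C c * X ^ s + C b).natDegree < j + s := by
    refine (natDegree_add_le _ _).trans_lt (max_lt ?_ ?_)
    · exact (natDegree_C_mul_X_pow_le c s).trans_lt (by omega)
    · rw [natDegree_C]; omega
  have h3 : (C c * X ^ s + C b).degree < ((j + s : ℕ) : WithBot ℕ) :=
    (degree_le_natDegree).trans_lt (by exact_mod_cast h2)
  constructor
  · rw [h1]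
    exact monic_X_pow_add h3
  · rw [h1, natDegree_add_eq_left_of_natDegree_lt]
    · exact natDegree_X_pow _
    · rw [natDegree_X_pow]; exact h2

lemma tri_ne {j s : ℕ} {c b z : ℂ} (hc : 1 + ‖b‖ < ‖c‖) (hz : ‖z‖ = 1) :
    (tri j s c b).eval z ≠ 0 := by
  rw [tri_eval]
  intro h
  have h1 : c * z ^ s = -(z ^ (j + s) + b) := by linear_combination h
  have h2 : ‖c * z ^ s‖ = ‖c‖ := by rw [norm_mul, norm_pow, hz, one_pow, mul_one]
  have h3 : ‖-(z ^ (j + s) + b)‖ ≤ 1 + ‖b‖ := by
    rw [norm_neg]
    refine (norm_add_le _ _).trans ?_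
    rw [norm_pow, hz, one_pow]
  rw [← h1, h2] at h3
  linarith

theorem tri_count {j s : ℕ} (hj : 0 < j) (hs : 0 < s) {c b : ℂ} (hc : 1 + ‖b‖ < ‖c‖) :
    ((tri j s c b).roots.filter (fun ρ => 1 < ‖ρ‖)).card = j := by
  classical
  obtain ⟨hm, hd⟩ := tri_monic hj hs c b
  have hP0 : tri j s c b ≠ 0 := hm.ne_zero
  have hc0 : c ≠ 0 := by
    rintro rfl
    rw [norm_zero] at hc
    have := norm_nonneg b
    linarith
  have hcard : (tri j s c b).roots.card = j + s := by
    rw [← hd]
    exact (IsAlgClosed.splits _).natDegree_eq_card_roots.symm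
  have hroot : ∀ ρ ∈ (tri j s c b).roots, ‖ρ‖ ≠ 1 := by
    intro ρ hρ h1
    exact tri_ne hc h1 ((mem_roots hP0).1 hρ)
  obtain ⟨hi1, hi2⟩ := int_sum (tri j s c b).roots hroot
  -- the logarithmic derivative
  have hne0 : ∀ z : ℂ, ‖z‖ = 1 → z ≠ 0 := by
    rintro z hz rfl
    rw [norm_zero] at hz
    exact zero_ne_one hz
  have hder : ∀ z ∈ sphere (0 : ℂ) 1, HasDerivWithinAt
      (fun z => Complex.log ((tri j s c b).eval z / (c * z ^ s)))
      ((tri j s c b).derivative.eval z / (tri j s c b).eval z - s * z⁻¹) (sphere (0 : ℂ) 1) z := by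
    intro z hz
    have hz1 : ‖z‖ = 1 := by simpa using hz
    have hz0 := hne0 z hz1
    have hPz := tri_ne (j := j) (s := s) hc hz1
    have hslit : (tri j s c b).eval z / (c * z ^ s) ∈ slitPlane := by
      have e : (tri j s c b).eval z / (c * z ^ s) = 1 + (z ^ (j + s) + b) / (c * z ^ s) := by
        rw [tri_eval]
        field_simp
        ring
      rw [e]
      apply mem_slitPlane_of_norm_lt_one
      rw [norm_div, norm_mul, norm_pow, hz1, one_pow, mul_one, div_lt_one (by
        have := norm_nonneg b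
        linarith)]
      refine (norm_add_le _ _).trans_lt ?_
      rw [norm_pow, hz1, one_pow]
      exact hc
    have hd1 : HasDerivAt (fun z => (tri j s c b).eval z) ((tri j s c b).derivative.eval z) z :=
      (tri j s c b).hasDerivAt z
    have hd2 : HasDerivAt (fun z : ℂ => c * z ^ s) (c * (s * z ^ (s - 1))) z :=
      (hasDerivAt_pow s z).const_mul c
    have hq0 : c * z ^ s ≠ 0 := mul_ne_zero hc0 (pow_ne_zero _ hz0)
    have h3 := (hd1.div hd2 hq0).clog hslit
    refine (h3.congr_deriv ?_).hasDerivWithinAt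
    obtain ⟨r, rfl⟩ : ∃ r, s = r + 1 := ⟨s - 1, by omega⟩
    simp only [Nat.add_sub_cancel, Pi.div_apply]
    have hzr : z ^ r ≠ 0 := pow_ne_zero _ hz0
    generalize (tri j (r + 1) c b).eval z = P at hPz ⊢
    generalize (tri j (r + 1) c b).derivative.eval z = P'
    rw [pow_succ]
    field_simp
  have h0 := circleIntegral.integral_eq_zero_of_hasDerivWithinAt' (c := (0 : ℂ)) (R := 1)
    (by rw [abs_one]; exact hder)
  -- compare
  have hcongr : Set.EqOn (fun z : ℂ => ((tri j s c b).roots.map (fun ρ => 1 / (z - ρ))).sum)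
      (fun z => ((tri j s c b).derivative.eval z / (tri j s c b).eval z - s * z⁻¹) + s * z⁻¹)
      (sphere 0 1) := by
    intro z hz
    have hz1 : ‖z‖ = 1 := by simpa using hz
    have hPz := tri_ne (j := j) (s := s) hc hz1
    simp only
    rw [← (IsAlgClosed.splits (tri j s c b)).eval_derivative_div_eval_of_ne_zero hPz]
    ring
  have hint2 : CircleIntegrable (fun z : ℂ => (s : ℂ) * z⁻¹) 0 1 := by
    have h2 : CircleIntegrable (fun z : ℂ => (z - 0)⁻¹) 0 1 := by
      rw [circleIntegrable_sub_inv_iff]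
      right
      simp
    have h3 := h2.const_fun_smul (a := (s : ℂ))
    simpa [sub_zero] using h3
  have hint1 : CircleIntegrable (fun z : ℂ =>
      ((tri j s c b).derivative.eval z / (tri j s c b).eval z - s * z⁻¹)) 0 1 := by
    have h4 : CircleIntegrable (fun z : ℂ =>
        ((tri j s c b).roots.map (fun ρ => 1 / (z - ρ))).sum - s * z⁻¹) 0 1 := hi1.sub hint2
    refine (circleIntegrable_congr ?_).1 h4
    intro z hz
    rw [abs_one] at hz
    have h6 := hcongr hz
    simp only at h6 ⊢
    rw [h6]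
    ring
  have h5 : (∮ z in C(0, 1), ((tri j s c b).roots.map (fun ρ => 1 / (z - ρ))).sum) =
      2 * Real.pi * I * s := by
    rw [circleIntegral.integral_congr zero_le_one hcongr, circleIntegral.integral_add hint1 hint2,
      h0, zero_add]
    have h6 : (∮ z in C(0, 1), (s : ℂ) * z⁻¹) = s * ∮ z in C(0, 1), (z - 0 : ℂ)⁻¹ := by
      rw [← circleIntegral.integral_const_mul]
      simp
    rw [h6, circleIntegral.integral_sub_inv_of_mem_ball (by simp)]
    ring
  rw [h5] at hi2
  have h7 : ((tri j s c b).roots.filter (fun ρ => ‖ρ‖ < 1)).card = s := by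
    have h8 : (2 * Real.pi * I : ℂ) ≠ 0 := by
      simp [Real.pi_ne_zero]
    have h9 := mul_left_cancel₀ h8 hi2
    exact_mod_cast h9.symm
  have h10 : (tri j s c b).roots.filter (fun ρ => ¬ ‖ρ‖ < 1) =
      (tri j s c b).roots.filter (fun ρ => 1 < ‖ρ‖) := by
    apply Multiset.filter_congr
    intro ρ hρ
    have := hroot ρ hρ
    constructor
    · intro h
      exact lt_of_le_of_ne (not_lt.1 h) (Ne.symm this)
    · intro h
      exact not_lt.2 h.le
  have h11 := congrArg Multiset.card
    (Multiset.filter_add_not (fun ρ : ℂ => ‖ρ‖ < 1) (tri j s c b).roots)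
  rw [Multiset.card_add, h7, h10, hcard] at h11
  omega

end Pool.Agent.Helper168.MM
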