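import Mathlib
import Pool.Agent.Helper168.MM.Count

/-!
# Valuations of Mahler measures of trinomials
-/

set_option autoImplicit false

namespace Pool.Agent.Helper168.MM

open Polynomial Complex
open scoped ComplexConjugate

theorem exists_val (p : ℕ) (hp : p.Prime) : ∃ B : ValuationSubring ℂ,
    B.valuation (p : ℂ) < 1 ∧ (∀ m : ℤ, B.valuation (m : ℂ) ≤ 1) ∧
      ∀ q : ℤ, ¬ (p : ℤ) ∣ q → B.valuation (q : ℂ) = 1 := by
  let A : Subring ℂ := (Int.castRingHom ℂ).range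
  let x : A := ⟨(p : ℂ), ⟨(p : ℤ), by simp⟩⟩
  have hI : Ideal.span {x} ≠ ⊤ := by
    rw [Ne, Ideal.span_singleton_eq_top]
    intro hu
    obtain ⟨y, hy⟩ := hu.exists_right_inv
    obtain ⟨n, hn⟩ := y.2
    have h1 : (p : ℂ) * (n : ℂ) = 1 := by
      have h2 := congrArg Subtype.val hy
      have h3 : (n : ℂ) = (y : ℂ) := hn
      rw [h3]
      exact h2
    have h2 : (p : ℤ) * n = 1 := by exact_mod_cast h1
    have h3 : (p : ℤ) ∣ 1 := ⟨n, h2.symm⟩
    exact (Nat.prime_iff_prime_int.1 hp).not_dvd_one h3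
  obtain ⟨B, hB1, hB2⟩ := Ideal.image_subset_nonunits_valuationSubring (Ideal.span {x}) hI
  have hlt : B.valuation (p : ℂ) < 1 := by
    have h1 : (p : ℂ) ∈ B.nonunits := hB2 ⟨x, Ideal.mem_span_singleton_self x, rfl⟩
    exact (ValuationSubring.mem_nonunits_iff B).1 h1
  have hle : ∀ m : ℤ, B.valuation (m : ℂ) ≤ 1 := by
    intro m
    exact (B.valuation_le_one_iff _).2 (hB1 ⟨m, rfl⟩)
  refine ⟨B, hlt, hle, ?_⟩
  intro q hq
  have hcop : IsCoprime (p : ℤ) q := (Nat.prime_iff_prime_int.1 hp).coprime_iff_not_dvd.2 hq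
  obtain ⟨a, b, hab⟩ := hcop
  by_contra hne
  have hlt2 : B.valuation (q : ℂ) < 1 := lt_of_le_of_ne (hle q) hne
  have h1 : B.valuation ((a : ℂ) * p + b * q) < 1 := by
    apply Valuation.map_add_lt
    · rw [map_mul]
      exact mul_lt_one_of_nonneg_of_lt_one_right (hle a) zero_le hlt
    · rw [map_mul]
      exact mul_lt_one_of_nonneg_of_lt_one_right (hle b) zero_le hlt2
  have h2 : (a : ℂ) * p + b * q = 1 := by exact_mod_cast hab
  rw [h2, map_one] at h1
  exact lt_irrefl _ h1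

variable {Γ : Type*} [LinearOrderedCommGroupWithZero Γ] (v : Valuation ℂ Γ)

lemma root_val {j s : ℕ} (hs : 0 < s) {c b ρ : ℂ} (hb0 : b ≠ 0)
    (hb : v b < 1) (hc : v c ≤ v b) (h : (tri j s c b).eval ρ = 0) : v ρ ^ (j + s) = v b := by
  rw [tri_eval] at h
  have hb0' : 0 < v b := zero_lt_iff.2 (v.ne_zero_iff.2 hb0)
  have h1 : ρ ^ (j + s) = -(c * ρ ^ s + b) := by linear_combination h
  have h2 : v ρ ^ (j + s) = v (c * ρ ^ s + b) := by rw [← map_pow, h1, Valuation.map_neg]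
  rcases le_or_gt 1 (v ρ) with hx | hx
  · exfalso
    have hx0 : 0 < v ρ := zero_lt_one.trans_le hx
    have h3 : v (c * ρ ^ s + b) < v ρ ^ (j + s) := by
      apply Valuation.map_add_lt
      · rw [map_mul, map_pow, pow_add]
        calc v c * v ρ ^ s < 1 * v ρ ^ s :=
              mul_lt_mul_of_pos_right (hc.trans_lt hb) (pow_pos hx0 s)
          _ ≤ v ρ ^ j * v ρ ^ s := mul_le_mul_left (one_le_pow₀ hx) _
      · exact hb.trans_le (one_le_pow₀ hx)
    exact absurd h2 (ne_of_gt h3)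
  · have h3 : v (c * ρ ^ s) < v b := by
      rw [map_mul, map_pow]
      have h4 : v ρ ^ s < 1 := pow_lt_one₀ zero_le hx hs.ne'
      calc v c * v ρ ^ s ≤ v b * v ρ ^ s := mul_le_mul_left hc _
        _ < v b * 1 := mul_lt_mul_of_pos_left h4 hb0'
        _ = v b := mul_one _
    rw [h2]
    exact Valuation.map_add_eq_of_lt_right v h3

lemma root_unit {j s : ℕ} (hj : 0 < j) (hs : 0 < s) {c b ρ : ℂ}
    (hb : v b = 1) (hc : v c ≤ 1) (h : (tri j s c b).eval ρ = 0) : v ρ ^ 1 = 1 := by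
  rw [tri_eval] at h
  rw [pow_one]
  by_contra hne
  rcases lt_or_gt_of_ne hne with hx | hx
  · have h1 : b = -(ρ ^ (j + s) + c * ρ ^ s) := by linear_combination h
    have h2 : v (ρ ^ (j + s) + c * ρ ^ s) < 1 := by
      apply Valuation.map_add_lt
      · rw [map_pow]
        exact pow_lt_one₀ zero_le hx (by omega)
      · rw [map_mul, map_pow]
        exact mul_lt_one_of_nonneg_of_lt_one_right hc zero_le (pow_lt_one₀ zero_le hx hs.ne')
    rw [h1, Valuation.map_neg] at hb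
    rw [hb] at h2
    exact lt_irrefl _ h2
  · have h1 : ρ ^ (j + s) = -(c * ρ ^ s + b) := by linear_combination h
    have h2 : v ρ ^ (j + s) = v (c * ρ ^ s + b) := by rw [← map_pow, h1, Valuation.map_neg]
    have h3 : v (c * ρ ^ s + b) < v ρ ^ (j + s) := by
      have h4 : v ρ ^ s < v ρ ^ (j + s) := pow_lt_pow_right₀ hx (by omega)
      apply Valuation.map_add_lt
      · rw [map_mul, map_pow]
        refine lt_of_le_of_lt ?_ h4
        calc v c * v ρ ^ s ≤ 1 * v ρ ^ s := mul_le_mul_left hc _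
          _ = v ρ ^ s := one_mul _
      · rw [hb]
        exact one_lt_pow₀ hx (by omega)
    exact absurd h2 (ne_of_gt h3)

lemma multi_val (W : ℕ) (π : Γ) (S : Multiset ℂ)
    (h : ∀ ρ ∈ S, v ρ ^ W = π ∧ v (conj ρ) ^ W = π) :
    v ((((S.map (fun a => max 1 ‖a‖)).prod : ℝ) : ℂ) ^ 2) ^ W =
      π ^ (2 * (S.filter (fun ρ => 1 < ‖ρ‖)).card) := by
  classical
  induction S using Multiset.induction_on with
  | empty => simp
  | cons a S ih =>
    have ih' := ih (fun ρ hρ => h ρ (Multiset.mem_cons_of_mem hρ))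
    obtain ⟨ha1, ha2⟩ := h a (Multiset.mem_cons_self a S)
    rw [Multiset.map_cons, Multiset.prod_cons]
    by_cases hlt : 1 < ‖a‖
    · rw [Multiset.filter_cons_of_pos (p := fun ρ : ℂ => 1 < ‖ρ‖) _ hlt, Multiset.card_cons,
        max_eq_right hlt.le]
      have h1 : (((‖a‖ : ℝ) : ℂ)) ^ 2 = a * conj a := by
        rw [Complex.mul_conj, Complex.normSq_eq_norm_sq, Complex.ofReal_pow]
      rw [Complex.ofReal_mul, mul_pow, h1, map_mul, map_mul, mul_pow, mul_pow, ha1, ha2, ih',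
        mul_add, pow_add, mul_one, pow_two, mul_comm]
    · rw [Multiset.filter_cons_of_neg (p := fun ρ : ℂ => 1 < ‖ρ‖) _ hlt,
        max_eq_left (not_lt.1 hlt), one_mul, ih']

theorem tri_val {j s : ℕ} (hj : 0 < j) (hs : 0 < s) {c b : ℤ}
    (hc : 1 + ‖(b : ℂ)‖ < ‖(c : ℂ)‖) (W : ℕ) (π : Γ)
    (h : ∀ ρ, (tri j s c b).eval ρ = 0 → v ρ ^ W = π) :
    v ((((tri j s c b).mahlerMeasure : ℝ) : ℂ) ^ 2) ^ W = π ^ (2 * j) := by
  obtain ⟨hm, hd⟩ := tri_monic hj hs (c : ℂ) (b : ℂ)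
  rw [Polynomial.mahlerMeasure_eq_leadingCoeff_mul_prod_roots, hm.leadingCoeff, norm_one, one_mul,
    multi_val v W π, tri_count hj hs hc]
  intro ρ hρ
  have h1 := (mem_roots hm.ne_zero).1 hρ
  refine ⟨h ρ h1, h (conj ρ) ?_⟩
  have h2 : (tri j s c b).eval ρ = 0 := h1
  rw [tri_eval] at h2 ⊢
  have h3 := congrArg conj h2
  simpa using h3

/-- an exponent comparison -/
lemma no_int {j s a : ℕ} (hj : 0 < j) (hs : 0 < s) {π x : Γ} (hπ0 : 0 < π) (hπ1 : π < 1)
    (hx : x ^ (j + s) = π ^ (2 * j)) (hx' : x = π ^ (2 * a)) : False := by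
  rw [hx', ← pow_mul] at hx
  have h1 := (pow_right_strictAnti₀ hπ0 hπ1).injective hx
  rcases Nat.eq_zero_or_pos a with rfl | ha
  · simp at h1
    omega
  · nlinarith

lemma exps {j s j' s' : ℕ} (hj : 0 < j) (hs : 0 < s) (hj' : 0 < j') (hs' : 0 < s')
    (hc : Nat.Coprime j s) (hc' : Nat.Coprime j' s') {π x : Γ} (hπ0 : 0 < π) (hπ1 : π < 1)
    (hx : x ^ (j + s) = π ^ (2 * j)) (hx' : x ^ (j' + s') = π ^ (2 * j')) : j = j' ∧ s = s' := by
  have h1 : π ^ (2 * j * (j' + s')) = π ^ (2 * j' * (j + s)) := by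
    rw [pow_mul, ← hx, pow_mul, ← hx', ← pow_mul, ← pow_mul, mul_comm]
  have h2 := (pow_right_strictAnti₀ hπ0 hπ1).injective h1
  have h3 : j * s' = j' * s := by nlinarith
  have h4 : j ∣ j' := hc.dvd_of_dvd_mul_right ⟨s', h3.symm⟩
  have h5 : j' ∣ j := hc'.dvd_of_dvd_mul_right ⟨s, h3⟩
  have h6 := Nat.dvd_antisymm h4 h5
  subst h6
  exact ⟨rfl, (Nat.eq_of_mul_eq_mul_left hj h3).symm⟩

end Pool.Agent.Helper168.MM
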